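import Pool.Agent.V11226.ED.Main

/-!
# MP_5d2e8b_nt: the digits of the dilates of dense Sidon sets

Fix a base `b`, a length `l` and a tolerance `η > 0`. Let `α` be a real number with
`|n α - p| ≥ c_ε n ^ (-1-ε)` for all `ε > 0` (every real algebraic irrational number, by Roth's
theorem, which is proved in the library of helper89), let `β` be any real number and
`z = (z_0, z_1, …)` any sequence of words of `l` digits. Call `a` typical up to `N` if the word `z_i`
stands right after the `i`-th digit of `a α + β` (after the point) for a proportion of the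
`i < log_b N` which differs from `b ^ (-l)` by at most `η`.

1. Every Sidon set has at most `(C N ^ (1 - δ)) ^ (1/2)` elements up to `N` which are not typical;
   `δ` depends only on `b`, `l` and `η`, and `C` on these and `α`.
2. So a Sidon set as asked for in Q1, with `A(x) ≥ c_0 x ^ (1/2) (log x) ^ (-c)` for all large `x`,
   has for all large `N` at most `N ^ (-δ) A(N)` elements up to `N` which are not typical, uniformly
   for all `β` and `z`. In other words, the answer to Q1 is negative for all Sidon sets of which, for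
   arbitrarily large `N`, more than a proportion `N ^ (-δ)` of the elements up to `N` is not typical
   for some `β` and `z` (for example for Sidon sets of integers `a` for which a digit is missing
   among the first `log_b N` digits of `a √2` after the point).
-/

set_option autoImplicit false

open Filter

namespace Pool.Agent.Results.MP_5d2e8b_nt.DigitsOfDilates

/-- `A` is a Sidon set. -/
def Sidon (A : Set ℕ) : Prop :=
  ∀ x ∈ A, ∀ y ∈ A, ∀ u ∈ A, ∀ v ∈ A, x + y = u + v → (x = u ∧ y = v) ∨ (x = v ∧ y = u)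

/-- `count S N`: the number of elements of `S` up to `N`. -/
noncomputable def count (S : Set ℕ) (N : ℕ) : ℕ := {x : ℕ | x ∈ S ∧ x ≤ N}.ncard

/-- `|n α - p| ≥ c n ^ (-1-ε)` for every `ε > 0`, with some `c > 0` depending on `ε`. -/
def TypeOne (α : ℝ) : Prop :=
  ∀ ε : ℝ, 0 < ε → ∃ c : ℝ, 0 < c ∧ ∀ n : ℕ, 1 ≤ n → ∀ p : ℤ, c ≤ (n : ℝ) ^ (1 + ε) * |n * α - p|

/-- The number of the places `i < L` such that the word `z i` of `l` digits in base `b` (a number
below `b ^ l`) stands right after the `i`-th digit after the point of `x`. -/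
noncomputable def agreements (b l : ℕ) (z : ℕ → ℕ) (L : ℕ) (x : ℝ) : ℕ :=
  {i : ℕ | i < L ∧ ⌊(b : ℝ) ^ (i + l) * x⌋ % ((b ^ l : ℕ) : ℤ) = (z i : ℤ)}.ncard

/-- The proportion of the places `i < L` with agreement differs from `b ^ (-l)` by at most `η`. -/
def Typical (b l : ℕ) (z : ℕ → ℕ) (η : ℝ) (L : ℕ) (x : ℝ) : Prop :=
  |(agreements b l z L x : ℝ) / L - 1 / (b : ℝ) ^ l| ≤ η

/-- (1) In a Sidon set at most `(C N ^ (1 - δ)) ^ (1/2)` elements up to `N` are such that
`a α + β` is not typical for `z`. (2) In a Sidon set as in Q1 at most a proportion `N ^ (-δ)` of the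
elements up to `N` are not typical, uniformly in `β` and `z`. The number `α` is arbitrary of type one,
for example algebraic and irrational. -/
theorem result (b l : ℕ) (hb : 2 ≤ b) (η : ℝ) (hη : 0 < η) :
    (∀ α : ℝ, IsAlgebraic ℚ α → Irrational α → TypeOne α) ∧
    ∃ δ : ℝ, 0 < δ ∧ ∀ α : ℝ, TypeOne α →
      (∃ C : ℝ, 0 < C ∧ ∀ A : Set ℕ, Sidon A → ∀ (β : ℝ) (z : ℕ → ℕ) (N : ℕ),
        (∀ i, z i < b ^ l) → 1 ≤ N →
        (count {a | a ∈ A ∧ ¬ Typical b l z η (Nat.log b N) (a * α + β)} N : ℝ) ^ 2 ≤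
          C * (N : ℝ) ^ (1 - δ)) ∧
      ∀ A : Set ℕ, Sidon A → ∀ c c₀ : ℝ, 0 < c₀ →
        (∀ᶠ N : ℕ in atTop, c₀ * (N : ℝ) ^ (1 / 2 : ℝ) / (Real.log N) ^ c ≤ count A N) →
        ∀ᶠ N : ℕ in atTop, ∀ (β : ℝ) (z : ℕ → ℕ), (∀ i, z i < b ^ l) →
          (count {a | a ∈ A ∧ ¬ Typical b l z η (Nat.log b N) (a * α + β)} N : ℝ) ≤
            (N : ℝ) ^ (-δ) * count A N := by
  classical
  refine ⟨fun α h1 h2 => Pool.Agent.V11226.ED.typeOne_of_alg α h1 h2, ?_⟩
  obtain ⟨δ, hδ, H⟩ := Pool.Agent.V11226.ED.mainD b l 2 hb (by omega) η hη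
  have hagr : ∀ (z : ℕ → ℕ) (L : ℕ) (x : ℝ), agreements b l z L x =
      Pool.Agent.V11226.ED.agrR b l z L x := by
    intro z L x
    unfold agreements Pool.Agent.V11226.ED.agrR Pool.Agent.V11226.ED.BlkR
    rw [← Set.ncard_coe_finset]
    congr 1
    ext i
    simp only [Set.mem_ofPred_eq, Finset.coe_filter, Finset.mem_range]
  have hset : ∀ (A : Set ℕ) (α β : ℝ) (z : ℕ → ℕ) (N : ℕ),
      count {a | a ∈ A ∧ ¬ Typical b l z η (Nat.log b N) (a * α + β)} N =
      ({x | x ∈ A ∧ ¬ Pool.Agent.V11226.ED.TypD b l z α β η N x ∧ x ≤ N} : Set ℕ).ncard := by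
    intro A α β z N
    unfold count
    congr 1
    ext x
    have h1 : Typical b l z η (Nat.log b N) ((x : ℝ) * α + β) ↔
        Pool.Agent.V11226.ED.TypD b l z α β η N x := by
      unfold Typical Pool.Agent.V11226.ED.TypD
      rw [hagr]
    constructor
    · rintro ⟨⟨h2, h3⟩, h4⟩
      exact ⟨h2, fun h => h3 (h1.2 h), h4⟩
    · rintro ⟨h2, h3, h4⟩
      exact ⟨⟨h2, fun h => h3 (h1.1 h)⟩, h4⟩
  have hsid : ∀ A : Set ℕ, Sidon A → ∀ n, (Pool.Agent.V11226.ET.msets A 2 n).ncard ≤ 1 := by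
    intro A hA n
    rw [Set.ncard_le_one (Pool.Agent.V11226.ET.msets_finite A 2 n)]
    rintro M ⟨h1, h2, h3⟩ M' ⟨h1', h2', h3'⟩
    obtain ⟨x, y, rfl⟩ := Multiset.card_eq_two.1 h1
    obtain ⟨u, v, rfl⟩ := Multiset.card_eq_two.1 h1'
    simp only [Multiset.insert_eq_cons, Multiset.mem_cons, Multiset.mem_singleton,
      Multiset.sum_cons, Multiset.sum_singleton] at h2 h3 h2' h3'
    rcases hA x (h2 x (Or.inl rfl)) y (h2 y (Or.inr rfl)) u (h2' u (Or.inl rfl)) v
      (h2' v (Or.inr rfl)) (by omega) with ⟨rfl, rfl⟩ | ⟨rfl, rfl⟩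
    · rfl
    · exact Multiset.pair_comm _ _
  refine ⟨δ / 4, by positivity, ?_⟩
  intro α hα
  obtain ⟨C, hC, HC⟩ := H α hα
  have hmain : ∀ A : Set ℕ, Sidon A → ∀ (β : ℝ) (z : ℕ → ℕ) (N : ℕ),
      (∀ i, z i < b ^ l) → 1 ≤ N →
      (count {a | a ∈ A ∧ ¬ Typical b l z η (Nat.log b N) (a * α + β)} N : ℝ) ^ 2 ≤
        C * (N : ℝ) ^ (1 - δ) := by
    intro A hA β z N hz hN
    rw [hset]
    have h1 := HC z β A 1 N hz hN (fun n _ => hsid A hA n)
    simpa using h1
  constructor
  · refine ⟨C, hC, ?_⟩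
    intro A hA β z N hz hN
    refine (hmain A hA β z N hz hN).trans ?_
    refine mul_le_mul_of_nonneg_left ?_ hC.le
    exact Real.rpow_le_rpow_of_exponent_le (by exact_mod_cast hN) (by linarith)
  · intro A hA c c₀ hc₀ hden
    -- `(log N) ^ c` is smaller than `N ^ (δ/4)`
    have hlog : ∀ᶠ N : ℕ in atTop, (Real.log N) ^ c * Real.sqrt C ≤ c₀ * (N : ℝ) ^ (δ / 4) := by
      have h1 := (isLittleO_log_rpow_rpow_atTop c (show 0 < δ / 4 by positivity)).bound
        (show 0 < c₀ / (Real.sqrt C + 1) by positivity)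
      have h2 := tendsto_natCast_atTop_atTop (R := ℝ) |>.eventually h1
      filter_upwards [h2, eventually_ge_atTop 1] with N h3 hN
      have hN0 : (0 : ℝ) ≤ N := Nat.cast_nonneg _
      have hN1 : (1 : ℝ) ≤ N := by exact_mod_cast hN
      have hl0 : 0 ≤ Real.log N := Real.log_nonneg hN1
      rw [Real.norm_of_nonneg (Real.rpow_nonneg hl0 _), Real.norm_of_nonneg (Real.rpow_nonneg hN0 _)]
        at h3
      have hs : 0 ≤ Real.sqrt C := Real.sqrt_nonneg _
      calc (Real.log N) ^ c * Real.sqrt C ≤ (c₀ / (Real.sqrt C + 1) * (N : ℝ) ^ (δ / 4)) * Real.sqrt C :=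
            mul_le_mul_of_nonneg_right h3 hs
        _ = c₀ * (N : ℝ) ^ (δ / 4) * (Real.sqrt C / (Real.sqrt C + 1)) := by ring
        _ ≤ c₀ * (N : ℝ) ^ (δ / 4) * 1 := by
            refine mul_le_mul_of_nonneg_left ?_ (by positivity)
            rw [div_le_one (by positivity)]
            linarith
        _ = c₀ * (N : ℝ) ^ (δ / 4) := mul_one _
    filter_upwards [hden, hlog, eventually_ge_atTop 3] with N h1 h2 hN
    intro β z hz
    have hN1 : (1 : ℝ) ≤ N := by
      have : 1 ≤ N := by omega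
      exact_mod_cast this
    have hN1' : (1 : ℝ) < N := by
      have : 1 < N := by omega
      exact_mod_cast this
    have hN0 : (0 : ℝ) < N := by linarith
    have hl0 : 0 < Real.log N := Real.log_pos hN1'
    have hlc : 0 < (Real.log N) ^ c := Real.rpow_pos_of_pos hl0 _
    have h3 := hmain A hA β z N hz (by omega)
    have h4 : (count {a | a ∈ A ∧ ¬ Typical b l z η (Nat.log b N) (a * α + β)} N : ℝ) ≤
        Real.sqrt C * (N : ℝ) ^ ((1 - δ) / 2) := by
      have h5 : (Real.sqrt C * (N : ℝ) ^ ((1 - δ) / 2)) ^ 2 = C * (N : ℝ) ^ (1 - δ) := by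
        rw [mul_pow, Real.sq_sqrt hC.le, ← Real.rpow_natCast, ← Real.rpow_mul hN0.le]
        congr 2
        push_cast
        ring
      refine le_of_pow_le_pow_left₀ (n := 2) (by norm_num) (by positivity) ?_
      rw [h5]
      exact h3
    refine h4.trans ?_
    have h5 : Real.sqrt C ≤ c₀ * (N : ℝ) ^ (δ / 4) / (Real.log N) ^ c := by
      rw [le_div_iff₀ hlc, mul_comm]
      exact h2
    calc Real.sqrt C * (N : ℝ) ^ ((1 - δ) / 2) ≤
        (c₀ * (N : ℝ) ^ (δ / 4) / (Real.log N) ^ c) * (N : ℝ) ^ ((1 - δ) / 2) :=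
          mul_le_mul_of_nonneg_right h5 (by positivity)
      _ = (N : ℝ) ^ (-(δ / 4)) * (c₀ * (N : ℝ) ^ (1 / 2 : ℝ) / (Real.log N) ^ c) := by
          have h6 : (N : ℝ) ^ (δ / 4) * (N : ℝ) ^ ((1 - δ) / 2) =
              (N : ℝ) ^ (-(δ / 4)) * (N : ℝ) ^ (1 / 2 : ℝ) := by
            rw [← Real.rpow_add hN0, ← Real.rpow_add hN0]
            congr 1
            ring
          calc (c₀ * (N : ℝ) ^ (δ / 4) / (Real.log N) ^ c) * (N : ℝ) ^ ((1 - δ) / 2) =
              c₀ * ((N : ℝ) ^ (δ / 4) * (N : ℝ) ^ ((1 - δ) / 2)) / (Real.log N) ^ c := by ring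
            _ = _ := by rw [h6]; ring
      _ ≤ (N : ℝ) ^ (-(δ / 4)) * count A N :=
          mul_le_mul_of_nonneg_left h1 (by positivity)

end Pool.Agent.Results.MP_5d2e8b_nt.DigitsOfDilates
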